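import Mathlib
import Pool.Agent.Y822.F.Out

set_option autoImplicit false

/-!
# Almost prime values of almost all systems of linear forms

From any finite family of linear forms of polynomial height choose `k + 1` forms. For all but few of the
admissible choices the expected number of `n ≤ X` makes all the values free of prime factors below `X ^ w`,
for any `w < 1/4`, whatever the length `k + 1` of the system.
-/

namespace Pool.Agent.Results.MP_746f10_nt.AlmostAllSystems

open Finset Filter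

/-- The set `H` of linear forms `a x + b`, written as pairs `(a, b)`, is admissible in the sense of the
problem. -/
def Admissible (H : Finset (ℕ × ℕ)) : Prop :=
  (∀ f ∈ H, 1 ≤ f.2 ∧ f.2 < f.1) ∧ ∀ p : ℕ, p.Prime → ∃ n : ℤ, ∀ f ∈ H, ¬ (p : ℤ) ∣ (f.1 : ℤ) * n + f.2

open Classical in
/-- The number of `1 ≤ n ≤ X` such that every value `a n + b`, `(a, b) ∈ H`, has at most `r` prime factors,
counted with multiplicity, all of them at least `X ^ w`. -/
noncomputable def count (w : ℝ) (r X : ℕ) (H : Finset (ℕ × ℕ)) : ℕ :=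
  ((Icc 1 X).filter (fun n => ∀ f ∈ H, (f.1 * n + f.2).primeFactorsList.length ≤ r ∧
    ∀ q : ℕ, q.Prime → q ∣ f.1 * n + f.2 → (X : ℝ) ^ w ≤ q)).card

open Pool.Agent.Y822 Pool.Agent.Y822.F

lemma adm_prim {H : Finset (ℕ × ℕ)} (hH : Admissible H) {a : ℕ × ℕ} (ha : a ∈ H) : Prim a := by
  unfold Prim
  by_contra hne
  obtain ⟨p, hp, h1, h2⟩ := Nat.Prime.not_coprime_iff_dvd.1 hne
  obtain ⟨n, hn⟩ := hH.2 p hp
  apply hn a ha
  exact dvd_add ((Int.natCast_dvd_natCast.2 h1).mul_right n) (Int.natCast_dvd_natCast.2 h2)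

lemma adm_nat {H : Finset (ℕ × ℕ)} (hH : Admissible H) {p : ℕ} (hp : p.Prime) :
    ∃ n : ℕ, ∀ a ∈ H, ¬ p ∣ lf a n := by
  obtain ⟨n, hn⟩ := hH.2 p hp
  have hp0 : (p : ℤ) ≠ 0 := by exact_mod_cast hp.ne_zero
  refine ⟨(n % p).toNat, fun a ha hd => hn a ha ?_⟩
  have h1 : (((n % p).toNat : ℕ) : ℤ) = n % p := Int.toNat_of_nonneg (Int.emod_nonneg n hp0)
  have h2 : (p : ℤ) ∣ ((lf a (n % p).toNat : ℕ) : ℤ) := Int.natCast_dvd_natCast.2 hd
  unfold lf at h2
  push_cast at h2
  rw [h1] at h2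
  have h3 : (a.1 : ℤ) * n + a.2 = ((a.1 : ℤ) * (n % p) + a.2) + p * (a.1 * (n / p)) := by
    have := Int.emod_add_mul_ediv n p
    linear_combination (-(a.1 : ℤ)) * this
  rw [h3]
  exact dvd_add h2 (Dvd.intro _ rfl)

open Classical in
/-- Let `C > 0` and `0 < w < 1/4`, and let `r` be a natural number with `r + 1 > (C + 1) / w` (for example
`r = 4`, if `C < 1/4` and `w` is close to `1/4`). For every `k` there are `c > 0` and `B` such that for all
large `X` and EVERY finite set `F` of linear forms `a x + b` with `a, b ≤ X ^ C`: for all but at most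
`(|F| choose k) log(X) ^ B` of the admissible sets `H` of `k + 1` forms of `F` there are at least
`c X / log(X) ^ (k + 1)` integers `n ≤ X` such that all the values `a n + b`, `(a, b) ∈ H`, have at most `r`
prime factors, all of them at least `X ^ w`. -/
theorem result (k : ℕ) (C w : ℝ) (hC : 0 < C) (hw : 0 < w) (hw4 : w < 1 / 4) (r : ℕ)
    (hr : C + 1 < w * (r + 1)) : ∃ c : ℝ, 0 < c ∧ ∃ B X₀ : ℕ, ∀ X : ℕ, X₀ ≤ X → ∀ F : Finset (ℕ × ℕ),
      (∀ f ∈ F, (f.1 : ℝ) ≤ (X : ℝ) ^ C ∧ (f.2 : ℝ) ≤ (X : ℝ) ^ C) →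
      (((F.powersetCard (k + 1)).filter (fun H => Admissible H ∧
        (count w r X H : ℝ) < c * (X / Real.log X ^ (k + 1)))).card : ℝ) ≤
        F.card.choose k * Real.log X ^ B := by
  obtain ⟨w', hw'⟩ : ∃ w' : ℝ, w' = max w (1 / 12) := ⟨_, rfl⟩
  have hww : w ≤ w' := by rw [hw']; exact le_max_left _ _
  have h12 : 1 / 12 ≤ w' := by rw [hw']; exact le_max_right _ _
  have h4 : w' < 1 / 4 := by rw [hw']; exact max_lt hw4 (by norm_num)
  obtain ⟨K, hK⟩ : ∃ K : ℕ, K = ⌈C⌉₊ := ⟨_, rfl⟩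
  obtain ⟨cb, hcb, hb1⟩ := base1 k
  obtain ⟨c, hc, B, hfin⟩ := final w' h12 h4 K k 0 (fun _ => (1 : ℝ)) (fun _ => ⟨zero_le_one, le_rfl⟩)
    (fun H => ∀ p, p.Prime → nuF H p < p) ⟨cb, hcb, hb1⟩
  have e1 := ev_logN (ev_pow_exp 0 (w' * (r + 1) - (C + 1)) 2 (by
    have : w * (r + 1) ≤ w' * (r + 1) := mul_le_mul_of_nonneg_right hww (by positivity)
    linarith))
  obtain ⟨X₀, hX₀⟩ := eventually_atTop.1 (hfin.and e1)
  refine ⟨c, hc, B, max X₀ 3, fun X hX F hF => ?_⟩
  obtain ⟨hX1, hX2⟩ := hX₀ X ((le_max_left _ _).trans hX)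
  have hX3 : 3 ≤ X := (le_max_right _ _).trans hX
  have hX0 : (0 : ℝ) < X := by positivity
  have hXr : (1 : ℝ) ≤ X := by exact_mod_cast (by omega : 1 ≤ X)
  have hL0 : 0 ≤ Real.log X := Real.log_nonneg hXr
  set A := F.filter (fun a => Prim a ∧ 1 ≤ a.1) with hA
  have hHt : ∀ a ∈ A, Ht (X ^ K) a := by
    intro a ha
    rw [hA, mem_filter] at ha
    have h5 : (X : ℝ) ^ C ≤ ((X ^ K : ℕ) : ℝ) := by
      push_cast
      rw [← Real.rpow_natCast, hK]
      exact Real.rpow_le_rpow_of_exponent_le hXr (Nat.le_ceil C)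
    obtain ⟨g1, g2⟩ := hF a ha.1
    exact ⟨ha.2.1, ha.2.2, by exact_mod_cast g1.trans h5, by exact_mod_cast g2.trans h5⟩
  have h5 := hX1 A hHt ((F.powersetCard (k + 1)).filter (fun H => Admissible H ∧
        (count w r X H : ℝ) < c * (X / Real.log X ^ (k + 1)))) (fun H hH => by
    rw [mem_filter, mem_powersetCard] at hH
    obtain ⟨⟨b1, b2⟩, b3, b4⟩ := hH
    refine ⟨?_, fun p hp => nuF_lt hp.pos (adm_nat b3 hp), ?_⟩
    · rw [mem_powersetCard]
      refine ⟨fun a ha => ?_, b2⟩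
      rw [hA, mem_filter]
      have := (b3.1 a ha)
      exact ⟨b1 ha, adm_prim b3 ha, by omega⟩
    · rw [zero_add]
      refine lt_of_le_of_lt ?_ b4
      unfold count
      rw [card_filter]
      push_cast
      refine sum_le_sum fun n hn => ?_
      rw [mem_Icc] at hn
      rw [one_mul]
      refine prod_gw X w' H n _ (fun h => ?_)
      intro f hf
      have hq : ∀ q : ℕ, q.Prime → q ∣ f.1 * n + f.2 → (X : ℝ) ^ w' ≤ q := fun q hq hqd => h f hf q hq hqd
      obtain ⟨g1, g2⟩ := hF f (b1 hf)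
      refine ⟨len_le (N := X) (w := w') (by omega) (by linarith) ?_ ?_ hq, fun q hq' hqd => ?_⟩
      · have := b3.1 f hf
        omega
      · have hn2 : (n : ℝ) ≤ X := by exact_mod_cast hn.2
        have e2 : (X : ℝ) ^ (w' * (r + 1)) = (X : ℝ) ^ (C + 1) * Real.exp ((w' * (r + 1) - (C + 1)) * Real.log X) := by
          rw [Real.rpow_def_of_pos hX0, Real.rpow_def_of_pos hX0, ← Real.exp_add]
          congr 1
          ring
        rw [e2]
        rw [pow_zero, mul_one] at hX2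
        have e3 : (X : ℝ) ^ (C + 1) = (X : ℝ) ^ C * X := by rw [Real.rpow_add hX0, Real.rpow_one]
        have e4 : (0 : ℝ) < (X : ℝ) ^ C := by positivity
        push_cast
        calc (f.1 : ℝ) * n + f.2 ≤ (X : ℝ) ^ C * X + (X : ℝ) ^ C := by gcongr
          _ < (X : ℝ) ^ C * X * 2 := by
              have : (X : ℝ) ^ C * 1 < (X : ℝ) ^ C * X := mul_lt_mul_of_pos_left (by
                have : (3 : ℝ) ≤ X := by exact_mod_cast hX3
                linarith) e4
              linarith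
          _ ≤ (X : ℝ) ^ C * X * Real.exp ((w' * (r + 1) - (C + 1)) * Real.log X) := by gcongr
          _ = _ := by rw [e3]
      · exact le_trans (Real.rpow_le_rpow_of_exponent_le hXr hww) (hq q hq' hqd))
  refine h5.trans (mul_le_mul_of_nonneg_right ?_ (pow_nonneg hL0 _))
  exact_mod_cast Nat.choose_le_choose k (card_le_card (filter_subset _ _))

end Pool.Agent.Results.MP_746f10_nt.AlmostAllSystems
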