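import Pool.Agent.TH977.PW.Inst

set_option autoImplicit false

/-!
# Regular neighbourhoods inside arbitrary sets of arguments with rough values of an admissible family

Let `f_i (n) = a_i n + b_i`, `1 ≤ i ≤ k`, be an admissible family of linear forms. Let `A` be an ARBITRARY
set of integers `n` for which no `f_i (n)` has a prime factor `≤ n ^ (1 / r)`: for instance the set of all
`n` for which all the `f_i (n)` are prime (the set of the conjecture), or the set of the `n` for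
which all the `f_i (n)` are almost primes, or any subset of them. Then for all but `ε Y / log ^ k X` of the
elements `n` of `A` in `(X, X + Y]` ALL the windows around `n` contain the right order of elements of `A`,
and at all but `B (ε, δ)` dyadic scales `A` has, up to `δ`, a constant density on both sides of `n`. This
holds in all intervals with `X ^ θ ≤ Y ≤ X / 2`, and in all these intervals there are at least
`κ Y / log ^ k X` integers `n` for which all the `f_i (n)` have at most `r` prime factors, all larger than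
`n ^ (1 / r)`.
-/

namespace Pool.Agent.Results.MP_746f10_nt.HereditaryNeighbourhoods

open Finset Filter

/-- no value `a_i n + b_i` has a prime factor `≤ n ^ (1 / r)` -/
def Rough {k : ℕ} (a : Fin k → ℕ) (b : Fin k → ℤ) (r : ℕ) : Set ℕ :=
  {n | ∀ i, ∀ p : ℕ, p.Prime → (p : ℤ) ∣ (a i : ℤ) * n + b i → (n : ℝ) ^ (1 / (r : ℝ)) < p}

/-- moreover every value has at most `r` prime factors (with multiplicity) -/
def Almost {k : ℕ} (a : Fin k → ℕ) (b : Fin k → ℤ) (r : ℕ) : Set ℕ :=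
  {n | n ∈ Rough a b r ∧ ∀ i, ((a i : ℤ) * n + b i).natAbs.primeFactorsList.length ≤ r}

open Pool.Agent.TH977.PW

theorem result (k : ℕ) (hk : 1 ≤ k) (a : Fin k → ℕ) (b : Fin k → ℤ) (ha : ∀ i, 0 < a i)
    (hinj : Function.Injective (fun i => (a i, b i)))
    (hadm : ∀ p : ℕ, p.Prime → ∃ n : ℕ, ∀ i, ¬ (p : ℤ) ∣ (a i : ℤ) * n + b i)
    (θ : ℝ) (hθ : 0 < θ) (hθ1 : θ ≤ 1) :
    ∃ r0 : ℕ, 2 ≤ r0 ∧ ∀ r : ℕ, r0 ≤ r →
    (∃ κ : ℝ, 0 < κ ∧ ∀ᶠ X : ℕ in atTop, ∀ Y : ℕ, (X : ℝ) ^ θ ≤ Y → Y ≤ X →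
      κ * Y / Real.log X ^ k ≤ N (Almost a b r) X (X + Y)) ∧
    ∀ ε : ℝ, 0 < ε → ∃ c : ℝ, 0 < c ∧ ∀ δ : ℝ, 0 < δ → ∃ B : ℕ,
      ∀ᶠ X : ℕ in atTop, ∀ Y : ℕ, (X : ℝ) ^ θ ≤ Y → 2 * Y ≤ X →
        ∀ A : Set ℕ, A ⊆ Rough a b r →
        (N (Irregular A k c δ B X Y) X (X + Y) : ℝ) ≤ ε * Y / Real.log X ^ k := by
  haveI : Nonempty (Fin k) := ⟨⟨0, by omega⟩⟩
  refine final_lin a b ha (fun i => ?_) (fun i j h1 h2 => hinj (Prod.ext h1 h2)) hadm
    (Rough a b) (Almost a b) k (Fintype.card_fin k) (fun r n _ h => h) (fun r n _ h1 h2 => ⟨h1, h2⟩)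
    θ hθ hθ1
  rw [Int.isCoprime_iff_gcd_eq_one]
  by_contra hg
  obtain ⟨p, hp, hd⟩ := Nat.exists_prime_and_dvd hg
  obtain ⟨n, hn⟩ := hadm p hp
  have h1 : (p : ℤ) ∣ (a i : ℤ) := (Int.natCast_dvd_natCast.2 hd).trans (Int.gcd_dvd_left _ _)
  have h2 : (p : ℤ) ∣ b i := (Int.natCast_dvd_natCast.2 hd).trans (Int.gcd_dvd_right _ _)
  exact hn i (dvd_add (h1.mul_right _) h2)

end Pool.Agent.Results.MP_746f10_nt.HereditaryNeighbourhoods
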