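import Pool.Agent.Y848.UG.FormsS

/-!
# Uniform prime tuplets: progressions of strings of primes along which all the forms are almost prime

For all `m` and `r` there are `δ > 0`, `κ` and `H` such that for all `k` and `A` there is `B` with the following
property. For all large `x` and EVERY set `F` of `r` linear forms `a x + b` with `2 ≤ a ≤ x ^ A`, `|b| ≤ x ^ A` such that
`{x} ∪ F` is admissible, there are at least `x / log ^ κ x` integers `n ≤ x` for which there is a difference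
`1 ≤ d ≤ log ^ B x` such that the `k` windows `(n + j d, n + j d + log x / (log log x) ^ 2]`, `j < k`, contain the same
primes up to translation, at least `m` of them, all within `H` of the beginning of the window, and for each of these
primes `p` and each form of `F` all prime factors of `a p + b` are larger than `x ^ δ`.
-/

set_option autoImplicit false

namespace Pool.Agent.Results.MP_746f10_nt.ProgressionsOfStrings

open Finset

/-- There are at least `m` primes in `(n, n + H]`, and every prime `p` with `n < p ≤ n + log x / (log log x) ^ 2` lies in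
`(n, n + H]`, and for all forms `(a, b)` in `F` all prime factors of `a p + b` are larger than `x ^ δ`. -/
def Window (m H : ℕ) (δ x : ℝ) (F : Finset (ℕ × ℤ)) (n : ℕ) : Prop :=
  m ≤ #((Ioc n (n + H)).filter Nat.Prime) ∧ ∀ p : ℕ, p.Prime → n < p →
    (p : ℝ) ≤ n + Real.log x / Real.log (Real.log x) ^ 2 →
      p ≤ n + H ∧ ∀ f ∈ F, ∀ q : ℕ, q.Prime → (q : ℤ) ∣ f.1 * (p : ℤ) + f.2 → x ^ δ < q

open Classical in
theorem result (m r : ℕ) : ∃ δ : ℝ, 0 < δ ∧ ∃ κ H : ℕ, ∀ (k : ℕ) (A : ℝ), ∃ B : ℕ, ∀ᶠ x : ℝ in Filter.atTop,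
    ∀ F : Finset (ℕ × ℤ), #F = r →
      (∀ f ∈ F, 2 ≤ f.1 ∧ (f.1 : ℝ) ≤ x ^ A ∧ |(f.2 : ℝ)| ≤ x ^ A) →
      (∀ p : ℕ, p.Prime → ∃ n : ℤ, ¬ (p : ℤ) ∣ n ∧ ∀ f ∈ F, ¬ (p : ℤ) ∣ f.1 * n + f.2) →
      x / Real.log x ^ κ ≤ (#((Icc 1 ⌊x⌋₊).filter (fun n => ∃ d : ℕ, 1 ≤ d ∧ (d : ℝ) ≤ Real.log x ^ B ∧
        ∀ j < k, ((n + j * d : ℕ) : ℝ) ≤ x ∧ Window m H δ x F (n + j * d) ∧
          ∀ t : ℕ, 1 ≤ t → (t : ℝ) ≤ Real.log x / Real.log (Real.log x) ^ 2 →
            ((n + j * d + t).Prime ↔ (n + t).Prime))) : ℝ) := by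
  obtain ⟨δ, hδ, κ, H, h⟩ := Pool.Agent.Y848.UG.forms_gen m r
  refine ⟨δ, hδ, κ, H, fun k A => ?_⟩
  obtain ⟨B, hB⟩ := h k 0 A
  refine ⟨B, ?_⟩
  filter_upwards [hB, Filter.eventually_ge_atTop 1] with x h1 h2
  intro F hF hsz hadm
  have hL0 : 0 ≤ Real.log x / Real.log (Real.log x) ^ 2 :=
    div_nonneg (Real.log_nonneg h2) (sq_nonneg _)
  have k1 := h1 F ⌊Real.log x / Real.log (Real.log x) ^ 2⌋₊ hF
    (fun h10 => by have := (hsz _ h10).1; omega)
    (fun f hf => by have := (hsz f hf).1; omega) hadm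
    (fun f hf => (hsz f hf).2) (Nat.floor_le hL0)
    (Or.inr fun f hf h => by have := (hsz f hf).1; omega)
  refine k1.trans ?_
  rw [Nat.cast_le]
  apply card_le_card
  intro n hn
  rw [mem_filter] at hn ⊢
  obtain ⟨hn1, d, hd1, hd2, hd3⟩ := hn
  refine ⟨hn1, d, hd1, hd2, fun j hj => ?_⟩
  obtain ⟨h4, ⟨h5, h6⟩, h7⟩ := hd3 j hj
  refine ⟨?_, ⟨h5, ?_⟩, ?_⟩
  · exact (Nat.cast_le.2 h4).trans (Nat.floor_le (by linarith))
  · intro p hp hpn hpL
    have h8 : p ≤ n + j * d + ⌊Real.log x / Real.log (Real.log x) ^ 2⌋₊ := by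
      have h9 : ((p - (n + j * d) : ℕ) : ℝ) ≤ Real.log x / Real.log (Real.log x) ^ 2 := by
        rw [Nat.cast_sub hpn.le]
        linarith
      have h10 := Nat.le_floor h9
      omega
    exact h6 p (mem_Ioc.2 ⟨hpn, h8⟩) hp
  · intro t ht1 ht2
    exact h7 t (mem_Icc.2 ⟨ht1, Nat.le_floor ht2⟩)

end Pool.Agent.Results.MP_746f10_nt.ProgressionsOfStrings
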