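import Pool.Agent.Y859.SP.Frm

set_option autoImplicit false

/-!
# Almost prime values of admissible sets of linear forms, uniformly in the coefficients
-/

namespace Pool.Agent.Results.MP_746f10_nt.UniformGapLaw

open Finset Filter

variable {k : ℕ}

/-- The set of the linear forms `a i * x + b i` is admissible in the sense of the problem. -/
def Admissible (a b : Fin k → ℕ) : Prop :=
  (∀ i, 1 ≤ b i ∧ b i < a i) ∧ ∀ p : ℕ, p.Prime → ∃ n : ℤ, ∀ i, ¬ (p : ℤ) ∣ a i * n + b i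

/-- Every `a i * n + b i` has at most `(2 A + 1) r` prime factors (with multiplicity), all of them larger
than `X ^ (1 / r)`. -/
def Good (a b : Fin k → ℕ) (A r X n : ℕ) : Prop :=
  ∀ i, (a i * n + b i).primeFactorsList.length ≤ (2 * A + 1) * r ∧
    ∀ p : ℕ, p.Prime → p ∣ a i * n + b i → (X : ℝ) ^ (1 / (r : ℝ)) < (p : ℝ)

open Classical in
/-- The sieve density: the product over the primes `p ≤ X ^ (1 / r)` of `1 - ω(p) / p`, where `ω(p)` is
the number of the classes `n` mod `p` with `p ∣ a i * n + b i` for some `i`. -/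
noncomputable def V (a b : Fin k → ℕ) (r X : ℕ) : ℝ :=
  ∏ p ∈ (Finset.range (⌊(X : ℝ) ^ (1 / (r : ℝ))⌋₊ + 1)).filter Nat.Prime,
    (1 - (((Finset.range p).filter (fun n => ∃ i, p ∣ a i * n + b i)).card : ℝ) / (p : ℝ))

open Classical in
/-- The number of the good `n` in `(Z, Z + Y]` with fewer than `l` good integers in `[n - T, n)`. -/
noncomputable def Near (a b : Fin k → ℕ) (A r X l T Z Y : ℕ) : ℕ :=
  ((Finset.Ioc Z (Z + Y)).filter (fun n => Good a b A r X n ∧
    ((Finset.Ico (n - T) n).filter (fun m => Good a b A r X m)).card < l)).card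

open Pool.Agent.TH464.PO Pool.Agent.W123.RP Pool.Agent.Y859.SP
open Pool.Agent.Y859.SP.Frm (QF Adm ctl_QF sf_Good V_QF)
open Pool.Agent.W123.RU (level_low)

open Classical in
/-- **The almost prime values of all admissible sets of `k ≥ 2` linear forms whose coefficients are at most
`X ^ A`**: in every interval of length at least `X ^ θ` inside `[0, X ^ A]` they have the expected density
`V ≥ v / log(X) ^ k`, and their distances follow the Gamma laws of a Poisson process. -/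
theorem result (k : ℕ) (hk : 2 ≤ k) : ∃ v : ℝ, 0 < v ∧ ∀ (A : ℕ) (θ : ℝ), 0 < θ →
    ∀ (l0 : ℕ) (x0 ε : ℝ), 0 < ε → ∃ r0 : ℕ, ∀ r : ℕ, r0 ≤ r → ∀ᶠ X : ℕ in atTop,
      ∀ a b : Fin k → ℕ, Admissible a b → Function.Injective (fun i => (a i, b i)) →
      (∀ i, a i ≤ X ^ A) → v / Real.log X ^ k ≤ V a b r X ∧
      ∀ Z Y : ℕ, (X : ℝ) ^ θ ≤ Y → Z + Y ≤ X ^ A →
      ∀ l T : ℕ, (l ≤ l0 ∨ T * V a b r X ≤ x0) →
        |(Near a b A r X l T Z Y : ℝ) - Y * V a b r X * ∑ j ∈ Finset.range l,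
          Real.exp (-(T * V a b r X)) * (T * V a b r X) ^ j / j.factorial| ≤
            ε * (Y * V a b r X) := by
  obtain ⟨v, hv, hVlo⟩ := V_lower_unif k
  refine ⟨v, hv, ?_⟩
  intro A θ hθ l0 x0 ε hε
  obtain ⟨r0, h0⟩ := gap_unif k (by omega) (4 * A + 1 + k ^ 2 * (2 * A + 2)) θ (by positivity) hθ
    l0 x0 ε hε
  refine ⟨max r0 2, ?_⟩
  intro r hr
  have hr2 : 2 ≤ r := (le_max_right _ _).trans hr
  have hrr : (2 : ℝ) ≤ r := by exact_mod_cast hr2
  have hpow2 : Tendsto (fun X : ℕ => (X : ℝ) ^ (1 / (2 * r : ℝ))) atTop atTop :=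
    (tendsto_rpow_atTop (by positivity)).comp tendsto_natCast_atTop_atTop
  filter_upwards [h0 r ((le_max_left _ _).trans hr), sf_Good A r (by omega), ctl_QF hk A,
    hpow2.eventually_ge_atTop 3, eventually_ge_atTop 16] with X hX hap hctl hX3 hX16
  intro a b hadm hinj hA
  have hadm' : Adm a b := ⟨hadm.1, hadm.2⟩
  have hV : Vq (QF a b) ⌊(X : ℝ) ^ (1 / (r : ℝ))⌋₊ = V a b r X := V_QF a b _
  have hc := hctl a b hadm' hinj hA
  refine ⟨?_, ?_⟩
  · rw [← hV]
    obtain ⟨hy1, hy2, hy3, hy4⟩ := level_low r hr2 X (by omega) (by linarith)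
    have hX16r : (16 : ℝ) ≤ X := by exact_mod_cast hX16
    have hL0 : 0 < Real.log X := Real.log_pos (by linarith)
    have hlogy : 0 < Real.log ⌊(X : ℝ) ^ (1 / (r : ℝ))⌋₊ := lt_of_lt_of_le (by positivity) hy2
    refine le_trans ?_ (hVlo (QF a b) hc.per hc.adm _ hy4)
    apply div_le_div_of_nonneg_left hv.le (by positivity)
    exact pow_le_pow_left₀ hlogy.le hy3 k
  intro Z Y hY hZY l T hlT
  have h1 := hX (QF a b) hc Z Y hY l T (by rw [hV]; exact hlT)
  rw [hV] at h1
  have hN : Near a b A r X l T Z Y = Pk (Sf (QF a b) ⌊(X : ℝ) ^ (1 / (r : ℝ))⌋₊) l T Z Y := by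
    unfold Near Pk
    congr 1
    apply Finset.filter_congr
    intro n hn
    rw [mem_Ioc] at hn
    have e1 : Sf (QF a b) ⌊(X : ℝ) ^ (1 / (r : ℝ))⌋₊ n ↔ Good a b A r X n :=
      hap a b hadm' hA n (hn.2.trans hZY)
    have e2 : (Finset.Ico (n - T) n).filter (fun m => Good a b A r X m) =
        (Finset.Ico (n - T) n).filter (Sf (QF a b) ⌊(X : ℝ) ^ (1 / (r : ℝ))⌋₊) := by
      apply Finset.filter_congr
      intro m hm
      rw [mem_Ico] at hm
      exact (hap a b hadm' hA m (hm.2.le.trans (hn.2.trans hZY))).symm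
    rw [e1, e2]
  rw [hN]
  exact h1

end Pool.Agent.Results.MP_746f10_nt.UniformGapLaw
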